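import Pool.Agent.Helper42.QD.Stmts

namespace Pool.Agent.Helper42.QD

open VD

theorem st_ABS (hIW : ST_IW) (hC1 : ST_C1) (hC2 : ST_C2) (hDZ : ST_DZ) : ST_ABS := by
  intro D k _ _ _ c hev htw R
  have hpos : 0 < orderOf c.sg := by
    have : Fintype (k ≃+* k) := by
      classical
      have : Fintype k := Fintype.ofFinite k
      exact Fintype.ofInjective (fun s : k ≃+* k => (s : k → k)) (fun a b h => RingEquiv.ext (congrFun h))
    exact orderOf_pos c.sg
  have key : ∀ m : ℕ, noK c ((m : ℤ) + 1) := by
    intro m
    induction m with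
    | zero =>
      have := hDZ D k c hev
      simpa using this
    | succ m ih =>
      have h0 : 0 < m + 1 := Nat.succ_pos m
      have h1 : noI c ((m + 1 : ℕ) : ℤ) := by
        refine hIW D k c (m + 1) h0 ?_ (by push_cast; exact ih)
        intro h
        have h2 := orderOf_dvd_of_pow_eq_one h
        have h3 := dvd_trans (even_iff_two_dvd.1 hev) h2
        omega
      by_cases h : c.sg ^ (m + 1) = 1
      · have h2 := orderOf_dvd_of_pow_eq_one h
        have h3 := dvd_trans (even_iff_two_dvd.1 hev) h2
        exact hC2 D k c (m + 1) (by omega) h1 h hev htw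
      · exact hC1 D k c (m + 1) h0 h1 h
  obtain ⟨m, hm, hm'⟩ := R.sm ⟨ind c 1 1, IsS_ind one_ne_zero (by rw [v_one]; omega)⟩
  have h1 := key (m - 1) R _ (by
    intro g hg
    exact hm' g (by convert hg using 1; push_cast [Nat.cast_sub (show 1 ≤ m from hm)]; ring))
  have h2 := congrArg (fun f : Sp c => f.1 1) h1
  simp only [ind, sub_self, c.P_zero, if_true] at h2
  exact one_ne_zero h2

end Pool.Agent.Helper42.QD
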