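import Pool.Agent.Helper42.QD.Stmts

namespace Pool.Agent.Helper42.QD

open VD

theorem st_CON (hSUP : ST_SUP) : ST_CON := by
  intro D k _ _ c R h oh M f hh hoh hM hf hf0 hM10
  obtain ⟨x, hx0, hx⟩ := exists_ne hf0
  have h1 := hSUP D k c R h oh M f hh hoh hM hf x hx
  have h2 := Ty_supp hf hx
  have hm0 : M 1 0 ≠ 0 := ne_of_not_P hM10
  have hv : c.v (M 1 0) = -h := by
    have h3 := lt_of_not_P hM10
    have h4 := (P_iff hm0).1 (hM 1 0)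
    omega
  -- x = M10 (1 + w)
  set w := (M 1 0)⁻¹ * (x - M 1 0) with hw
  have hw1 : c.P 1 w := P_mul' (P_inv hm0) h2 (by rw [hv]; omega)
  have hw2 := one_add hw1
  have e1 : x = M 1 0 * (1 + w) := by
    rw [hw, mul_add, mul_one, mul_inv_cancel_left₀ hm0]
    abel
  have hd : c.P (1 - h) ((1 + w) * M 0 0 * (1 + w)⁻¹ - M 0 0) := by
    have e2 : (1 + w) * M 0 0 * (1 + w)⁻¹ - M 0 0 = (w * M 0 0 - M 0 0 * w) * (1 + w)⁻¹ := by
      rw [eq_comm, sub_mul, eq_sub_iff_add_eq]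
      have h3 : M 0 0 = M 0 0 * (1 + w) * (1 + w)⁻¹ := by rw [mul_inv_cancel_right₀ hw2.1]
      nth_rw 3 [h3]
      rw [← sub_mul, ← add_mul]
      congr 1
      noncomm_ring
    rw [e2]
    have h4 : c.P 0 (1 + w)⁻¹ := Or.inr (by rw [v_inv hw2.1, hw2.2]; simp)
    exact P_mul' (P_sub (P_mul' hw1 (hM 0 0) (le_refl _)) (P_mul' (hM 0 0) hw1 (by omega)))
      h4 (by omega)
  have h5 := P_conj hm0 hd
  have e3 : M 1 1 - oh + M 1 0 * M 0 0 * (M 1 0)⁻¹ = (M 1 1 - oh + x * M 0 0 * x⁻¹) -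
      M 1 0 * ((1 + w) * M 0 0 * (1 + w)⁻¹ - M 0 0) * (M 1 0)⁻¹ := by
    have e4 : x * M 0 0 * x⁻¹ = M 1 0 * ((1 + w) * M 0 0 * (1 + w)⁻¹) * (M 1 0)⁻¹ := by
      rw [e1, mul_inv_rev]
      simp only [mul_assoc]
    rw [e4]
    noncomm_ring
  rw [e3]
  exact P_sub h1 h5

end Pool.Agent.Helper42.QD
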