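import Pool.Agent.Helper42.QD.Stmts

namespace Pool.Agent.Helper42.QM

open Pool.Agent.Helper42.QD
open Pool.Agent.Helper42.QD.VD

variable {D k : Type} [DivisionRing D] [Field k] {c : VD D k} {R : KM c}

/-- the commutator of `nn b` and `nm y` -/
def kap (b y : D) : G2 D := (nm y)⁻¹ * nn b * nm y * (nn b)⁻¹

theorem kap_00 (b y : D) : (kap b y).val 0 0 = 1 + b * y := by
  rw [kap, nm_inv, nn_inv]
  simp only [mul00, mul01, mul10, mul11, nn_val, nm_val, Matrix.of_apply, Matrix.cons_val',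
    Matrix.cons_val_zero, Matrix.cons_val_one, Matrix.cons_val_fin_one]
  noncomm_ring

theorem kap_01 (b y : D) : (kap b y).val 0 1 = -(b * y * b) := by
  rw [kap, nm_inv, nn_inv]
  simp only [mul00, mul01, mul10, mul11, nn_val, nm_val, Matrix.of_apply, Matrix.cons_val',
    Matrix.cons_val_zero, Matrix.cons_val_one, Matrix.cons_val_fin_one]
  noncomm_ring

theorem kap_10 (b y : D) : (kap b y).val 1 0 = -(y * b * y) := by
  rw [kap, nm_inv, nn_inv]
  simp only [mul00, mul01, mul10, mul11, nn_val, nm_val, Matrix.of_apply, Matrix.cons_val',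
    Matrix.cons_val_zero, Matrix.cons_val_one, Matrix.cons_val_fin_one]
  noncomm_ring

theorem kap_11 (b y : D) : (kap b y).val 1 1 = 1 - y * b + y * b * y * b := by
  rw [kap, nm_inv, nn_inv]
  simp only [mul00, mul01, mul10, mul11, nn_val, nm_val, Matrix.of_apply, Matrix.cons_val',
    Matrix.cons_val_zero, Matrix.cons_val_one, Matrix.cons_val_fin_one]
  noncomm_ring

theorem dg2_step [Finite k] (hSUP : ST_SUP) (h : ℕ) (oh m0 m1 : D) (hh : 0 < h)
    (hoh : IsOh R h oh) (hm0 : c.P (-h) m0) (hm1 : c.P (-h) m1)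
    (hz : ∃ z, c.P h z ∧ c.P 1 (m0 * z + z * m0 - oh * z + 1)) (i : ℤ) (hi1 : 1 ≤ i)
    (hih : i ≤ h - 1) (f : Sp c) (hf : Ty R h !![m0, 0; 0, m1] f) (hf0 : f ≠ 0)
    (hs : ∀ x, f.1 x ≠ 0 → c.P (-i) x) :
    ∃ f' : Sp c, f' ≠ 0 ∧ Ty R h !![m0, 0; 0, m1] f' ∧ ∀ x, f'.1 x ≠ 0 → c.P (1 - i) x := by
  have hM : ∀ i j, c.P (-h) ((!![m0, 0; 0, m1] : Matrix (Fin 2) (Fin 2) D) i j) :=
    P_of hm0 (c.P_zero _) (c.P_zero _) hm1
  obtain ⟨f1, hf1, hf1'⟩ := cut_Ty (R := R) hi1 hM hf 0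
  by_cases h1 : f1 = 0
  swap
  · refine ⟨f1, h1, hf1, fun x hx => ?_⟩
    by_contra hc
    apply hx
    rw [hf1']
    exact cut_apply_of_not (by rwa [sub_zero])
  obtain ⟨x, hx0, hx⟩ := exists_ne hf0
  have hxi : c.P (-i) x := hs x hx
  have hxn : ¬ c.P (1 - i) x := by
    intro hc
    apply hx
    have h2 : f1.1 x = f.1 x := by rw [hf1']; exact cut_apply_of (by rwa [sub_zero])
    rw [← h2, h1]
    rfl
  have hvx : c.v x = -i := by
    have h2 := lt_of_not_P hxn
    have h3 := (P_iff hx0).1 hxi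
    omega
  obtain ⟨fc, hfc, hfc'⟩ := cut_Ty (R := R) hi1 hM hf x
  have hfcx : fc.1 x = f.1 x := by
    rw [hfc']; exact cut_apply_of (by rw [sub_self]; exact c.P_zero _)
  have hfc0 : fc ≠ 0 := by
    intro h0
    apply hx
    rw [← hfcx, h0]
    rfl
  have hfcs : ∀ x', fc.1 x' ≠ 0 → c.P (1 - i) (x' - x) := by
    intro x' hx'
    by_contra hc
    apply hx'
    rw [hfc']
    exact cut_apply_of_not hc
  obtain ⟨z, hz1, hz2⟩ := hz
  have hy : c.P (h - i) (x * z) := P_mul' hxi hz1 (by omega)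
  have hK1 : KK c 1 (nm (x * z)) := KK_nm (P_mono (by omega) hy)
  refine ⟨R.rho (nm (x * z)) fc, rho_ne hfc0, Ty_K1 hM hK1 hfc, ?_⟩
  -- the key congruence
  have hkey : c.P (1 - i) (x + x * z * m0 - m1 * (x * z)) := by
    have hδ := hSUP D k c R h oh _ f hh hoh hM hf x hx
    have hδ' : c.P (1 - h) (m1 - oh + x * m0 * x⁻¹) := hδ
    have hε : c.P (1 - h - i) (oh * x - x * oh) := by
      have h3 := hoh.2.2 x hx0
      have h4 : oh * x - x * oh = (oh - x * oh * x⁻¹) * x := by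
        rw [sub_mul, mul_assoc (x * oh), inv_mul_cancel₀ hx0, mul_one]
      rw [h4]
      exact P_mul' (P_sub_comm h3) hxi (by omega)
    have e1 : x + x * z * m0 - m1 * (x * z) = x * (m0 * z + z * m0 - oh * z + 1) -
        (m1 - oh + x * m0 * x⁻¹) * x * z - (oh * x - x * oh) * z := by
      have h5 : x * m0 * x⁻¹ * x * z = x * m0 * z := by
        rw [mul_assoc (x * m0), inv_mul_cancel₀ hx0, mul_one]
      have h6 : (m1 - oh + x * m0 * x⁻¹) * x * z = m1 * x * z - oh * x * z + x * m0 * z := by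
        rw [add_mul, add_mul, sub_mul, sub_mul, h5]
      rw [h6]
      noncomm_ring
    rw [e1]
    exact P_sub (P_sub (P_mul' hxi hz2 (by omega)) (P_mul' (P_mul' hδ' hxi le_rfl) hz1 (by omega)))
      (P_mul' hε hz1 (by omega))
  intro x' hx'
  refine supp_of_nn (R := R) (i := i) (f := R.rho (nm (x * z)) fc) ?_ hx'
  intro b hb
  have hby : c.P h (b * (x * z)) := P_mul' hb hy (by omega)
  have hyb : c.P h (x * z * b) := P_mul' hy hb (by omega)
  have hκ : KK c h (kap b (x * z)) := by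
    rw [KK_iff, kap_00, kap_01, kap_10, kap_11]
    refine ⟨by rw [add_sub_cancel_left]; exact hby, P_neg (P_mul' hby hb (by omega)),
      P_neg (P_mul' hyb hy (by omega)), ?_⟩
    have : 1 - x * z * b + x * z * b * (x * z) * b - 1 = x * z * b * (x * z) * b - x * z * b := by
      noncomm_ring
    rw [this]
    exact P_sub (P_mul' (P_mul' hyb hy le_rfl) hb (by omega)) hyb
  have e1 : nn b * nm (x * z) = nm (x * z) * (kap b (x * z) * nn b) := by
    rw [kap]
    group
  rw [← rho_mul, e1, rho_mul, rho_mul, nn_of_supp' hfcs hb, map_smul, hfc _ hκ, smul_smul, map_smul]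
  have e2 : c.psi (x * b) *
      c.psi (((!![m0, 0; 0, m1] : Matrix (Fin 2) (Fin 2) D) * ((kap b (x * z)).val - 1)).trace) = 1 := by
    have e3 : ((!![m0, 0; 0, m1] : Matrix (Fin 2) (Fin 2) D) * ((kap b (x * z)).val - 1)).trace =
        m0 * (b * (x * z)) + m1 * (x * z * b * (x * z) * b - x * z * b) := by
      simp only [Matrix.trace_fin_two, Matrix.mul_apply, Fin.sum_univ_two, sub00, sub01, sub10,
        sub11, kap_00, kap_01, kap_10, kap_11, Matrix.of_apply, Matrix.cons_val',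
        Matrix.cons_val_zero, Matrix.cons_val_one, Matrix.cons_val_fin_one]
      noncomm_ring
    rw [e3]
    have e4 : c.psi (m0 * (b * (x * z)) + m1 * (x * z * b * (x * z) * b - x * z * b)) =
        c.psi (m0 * (b * (x * z)) - m1 * (x * z) * b) := by
      apply psi_congr
      have : m0 * (b * (x * z)) + m1 * (x * z * b * (x * z) * b - x * z * b) -
          (m0 * (b * (x * z)) - m1 * (x * z) * b) = m1 * (x * z * b * (x * z * b)) := by
        noncomm_ring
      rw [this]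
      exact P_mul' hm1 (P_mul hyb hyb) (by omega)
    rw [e4, sub_eq_add_neg, AddChar.map_add_eq_mul]
    have e5 : c.psi (m0 * (b * (x * z))) = c.psi (x * z * m0 * b) := by
      rw [show m0 * (b * (x * z)) = (m0 * b) * (x * z) by simp only [mul_assoc], c.psi_comm]
      simp only [mul_assoc]
    rw [e5, ← AddChar.map_add_eq_mul, ← AddChar.map_add_eq_mul]
    have e6 : x * b + (x * z * m0 * b + -(m1 * (x * z) * b)) =
        (x + x * z * m0 - m1 * (x * z)) * b := by
      noncomm_ring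
    rw [e6]
    exact psi_triv hkey hb
  rw [e2, one_smul]

theorem st_DG2 (hSUP : ST_SUP) : ST_DG2 := by
  intro D k _ _ _ c R h oh m0 m1 f hh hoh hm0 hm1 hz hf hf0
  have key : ∀ i : ℕ, i ≤ h - 1 → (∃ f' : Sp c, f' ≠ 0 ∧ Ty R h !![m0, 0; 0, m1] f' ∧
      ∀ x, f'.1 x ≠ 0 → c.P (-(i : ℤ)) x) → ∃ f' : Sp c, f' ≠ 0 ∧ Ty R h !![m0, 0; 0, m1] f' ∧
      ∀ x, f'.1 x ≠ 0 → c.P 0 x := by
    intro i
    induction i with
    | zero =>
      rintro _ ⟨f', h1, h2, h3⟩
      exact ⟨f', h1, h2, fun x hx => by simpa using h3 x hx⟩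
    | succ i ih =>
      rintro hi ⟨f', h1, h2, h3⟩
      obtain ⟨f'', h4, h5, h6⟩ := dg2_step hSUP h oh m0 m1 hh hoh hm0 hm1 hz ((i + 1 : ℕ) : ℤ)
        (by push_cast; omega) (by omega) f' h2 h1 h3
      refine ih (by omega) ⟨f'', h4, h5, fun x hx => ?_⟩
      have := h6 x hx
      refine P_mono ?_ this
      push_cast
      omega
  refine key (h - 1) le_rfl ⟨f, hf0, hf, fun x hx => ?_⟩
  have h1 := Ty_supp hf hx
  have h2 : c.P (1 - h) x := by simpa using h1
  refine P_mono ?_ h2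
  omega

end Pool.Agent.Helper42.QM
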