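import Pool.Agent.Helper42.QD.Stmts

namespace Pool.Agent.Helper42.QD

open VD

theorem st_SUP : ST_SUP := by
  intro D k _ _ c R h oh M f hh hoh hM hf x hx
  have hx0 : x ≠ 0 := fun h0 => hx (by rw [h0]; exact f.2.1)
  have hh1 : (1 : ℤ) ≤ h := by exact_mod_cast hh
  apply psi_dual
  intro u hu
  have hu1 := one_add (P_mono hh1 hu)
  set w := (1 + u)⁻¹ - 1 with hw
  have hw1 : c.P h w := one_add_inv hh1 hu
  set u' := x⁻¹ * w * x with hu'
  have hu'1 : c.P h u' := P_conj' hx0 hw1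
  have e1 : (1 + u)⁻¹ * x = x * (1 + u') := by
    rw [hu', mul_add, mul_one, ← mul_assoc, mul_inv_cancel_left₀ hx0, hw, sub_mul, one_mul]
    abel
  have h1 := Ty_left hh1 hf (x := x) hu
  rw [e1, Ty_right hh1 hf hu'1, hoh.2.1 u hu, ← mul_assoc] at h1
  have h2 := mul_right_cancel₀ hx h1
  rw [← AddChar.map_add_eq_mul] at h2
  -- u' is congruent to - x⁻¹ u x
  have h3 : c.P (2 * h) (w + u) := by
    have : w + u = w * (-u) := by
      have h4 : (1 + u)⁻¹ * (1 + u) = 1 := inv_mul_cancel₀ hu1.1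
      have h5 : (1 + w) * (1 + u) = 1 := by rw [hw, add_sub_cancel]; exact h4
      have h6 : 1 + (w + u + w * u) = (1 + w) * (1 + u) := by noncomm_ring
      rw [h5] at h6
      have h7 : w + u + w * u = 0 := by
        have := congrArg (fun z => z - 1) h6
        simpa using this
      rw [mul_neg]
      exact eq_neg_of_add_eq_zero_left h7
    rw [this]
    exact P_mul' hw1 (P_neg hu) (by omega)
  have h4 : c.P (2 * h) (u' + x⁻¹ * u * x) := by
    have : u' + x⁻¹ * u * x = x⁻¹ * (w + u) * x := by rw [hu']; noncomm_ring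
    rw [this]
    exact P_conj' hx0 h3
  have h5 : c.psi (M 0 0 * u') = c.psi (-(M 0 0 * (x⁻¹ * u * x))) := by
    apply psi_congr
    have : M 0 0 * u' - -(M 0 0 * (x⁻¹ * u * x)) = M 0 0 * (u' + x⁻¹ * u * x) := by noncomm_ring
    rw [this]
    exact P_mul' (hM 0 0) h4 (by omega)
  have h6 : c.psi (M 0 0 * (x⁻¹ * u * x)) = c.psi (x * M 0 0 * x⁻¹ * u) := by
    rw [show M 0 0 * (x⁻¹ * u * x) = (M 0 0 * x⁻¹ * u) * x by simp only [mul_assoc], c.psi_comm]
    simp only [mul_assoc]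
  rw [AddChar.map_add_eq_mul, h5, AddChar.map_neg_eq_inv, h6] at h2
  have e2 : (M 1 1 - oh + x * M 0 0 * x⁻¹) * u = M 1 1 * u + -(oh * u) + x * M 0 0 * x⁻¹ * u := by
    noncomm_ring
  rw [e2, AddChar.map_add_eq_mul, AddChar.map_add_eq_mul, AddChar.map_neg_eq_inv, ← h2]
  have n1 := psi_ne (c := c) (oh * u)
  have n2 := psi_ne (c := c) (x * M 0 0 * x⁻¹ * u)
  field_simp

end Pool.Agent.Helper42.QD
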